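import Pool.Agent.W938.Rnd.Gen

/-!
# Random oracles and circuits which ask every question in few rounds
-/

set_option autoImplicit false
set_option linter.unusedSectionVars false

namespace Pool.Agent.W938.Rnd

open Filter Pool.Agent.H620R2.Gauge Pool.Agent.NPC Pool.Agent.H889R3.RQ Pool.Agent.W938.Hyb H568R2
open Pool.Agent.H628R3.RO (randomOracle)
open Pool.Agent.H572R2 (EE EE_congr)
open Pool.Agent.H572R4.QA (var rs DegLe)

/-- The base of the bound for `DD`. -/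
def E1 (l : ℕ) : ℕ := 884736 * (l + 1) ^ 12 * (320 * (l + 1) ^ 7) ^ 2

lemma E1_mono {l L : ℕ} (h : l ≤ L) : E1 l ≤ E1 L := by
  unfold E1
  gcongr

lemma DD_pos (r l : ℕ) : 0 < DD r l := by
  unfold DD
  positivity

lemma DD_le (r l : ℕ) : DD r l ≤ (E1 l : ℝ) ^ (r + 1) := by
  unfold DD
  set a : ℝ := ((min r l + 1 : ℕ) : ℝ) with ha
  set b : ℝ := ((l + 1 : ℕ) : ℝ) with hb
  have hb1 : 1 ≤ b := by rw [hb]; exact_mod_cast Nat.succ_pos _
  have ha0 : 0 ≤ a := by rw [ha]; positivity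
  have hab : a ≤ b := by
    rw [ha, hb]
    exact_mod_cast Nat.succ_le_succ (min_le_right _ _)
  have h1 : 884736 * a ^ 2 * (b * b) ^ 5 ≤ 884736 * b ^ 12 := by
    calc 884736 * a ^ 2 * (b * b) ^ 5 ≤ 884736 * b ^ 2 * (b * b) ^ 5 := by gcongr
      _ = 884736 * b ^ 12 := by ring
  have h2 : 320 * a ^ 4 * b ^ 2 * b ≤ 320 * b ^ 7 := by
    calc 320 * a ^ 4 * b ^ 2 * b ≤ 320 * b ^ 4 * b ^ 2 * b := by gcongr
      _ = 320 * b ^ 7 := by ring
  have h3 : 1 ≤ 320 * b ^ 7 := by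
    have : 1 ≤ b ^ 7 := one_le_pow₀ hb1
    linarith
  have h4 : (320 * a ^ 4 * b ^ 2 * b) ^ (2 * (min r l + 1)) ≤ ((320 * b ^ 7) ^ 2) ^ (r + 1) := by
    rw [← pow_mul]
    calc (320 * a ^ 4 * b ^ 2 * b) ^ (2 * (min r l + 1)) ≤ (320 * b ^ 7) ^ (2 * (min r l + 1)) := by
          gcongr
      _ ≤ (320 * b ^ 7) ^ (2 * (r + 1)) := by
          apply pow_le_pow_right₀ h3
          have := min_le_left r l
          omega
  have h5 : 884736 * b ^ 12 ≤ (884736 * b ^ 12) ^ (r + 1) := by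
    apply le_self_pow₀
    · have : 1 ≤ b ^ 12 := one_le_pow₀ hb1
      linarith
    · omega
  calc 884736 * a ^ 2 * (b * b) ^ 5 * (320 * a ^ 4 * b ^ 2 * b) ^ (2 * (min r l + 1))
      ≤ (884736 * b ^ 12) ^ (r + 1) * ((320 * b ^ 7) ^ 2) ^ (r + 1) :=
        mul_le_mul (h1.trans h5) h4 (by positivity) (by positivity)
    _ = (E1 l : ℝ) ^ (r + 1) := by
        rw [← mul_pow]
        congr 1
        unfold E1
        push_cast
        rw [hb]
        push_cast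
        ring

/-- Decision trees for circuits which ask every question in few rounds. -/
theorem tree_few {N : ℕ} {Z : Adm N} (hZ : InjA Z) {r : ℕ} {c : List Unit × List Gate}
    (hc : FewRounds r c) (η : ℝ) (hη : 0 < η) :
    ∃ T : DTree (Fin N), (T.depth : ℝ) ≤ 2 * (2 * c.2.length + 1) * 72 ^ 6 * DD r c.2.length ^ 2
        / η ^ 7 + 1 ∧ EE (bad (fb Z c) T) ≤ η := by
  have hD := DD_pos r c.2.length
  obtain ⟨T, h1, h2⟩ := tree_family {f | ∃ Z' : Adm N, InjA Z' ∧ f = fb Z' c} (2 * c.2.length)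
    (by
      rintro f ⟨Z', hZ', rfl⟩ j b
      exact ⟨Z'.fix j b, hZ'.fix j b, rfl⟩)
    (by
      rintro f ⟨Z', hZ', rfl⟩
      exact ⟨fun y => (Pool.Agent.H116R3.RQ.b3 (Z'.O y) c).1,
        fun y => (Pool.Agent.H116R3.RQ.b3 (Z'.O y) c).2⟩)
    (by
      rintro f ⟨Z', hZ', rfl⟩
      exact degfb Z' c)
    η (((η / 72) ^ 3 / DD r c.2.length) ^ 2) hη (by positivity)
    (by
      rintro f ⟨Z', hZ', rfl⟩ hv
      have h0 : 0 < η / 72 := by positivity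
      obtain ⟨l, hl⟩ := infl hZ' hc (h0.trans hv)
      refine ⟨l, le_trans ?_ hl⟩
      gcongr)
    (fb Z c) ⟨Z, hZ, rfl⟩
  refine ⟨T, h1.trans (le_of_eq ?_), h2⟩
  push_cast
  field_simp

/-- The devices. -/
def Dev (r : ℕ → ℕ) : Type := {C : List Bool → List Unit × List Gate //
  PolyTime (fun x => bits (C x)) ∧ ∀ x, FewRounds (r x.length) (C x)}

instance (r : ℕ → ℕ) : Countable (Dev r) := by
  have h1 : {C : List Bool → List Unit × List Gate |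
      PolyTime (fun x => bits (C x)) ∧ ∀ x, FewRounds (r x.length) (C x)}.Countable := by
    refine countable_circ.mono ?_
    rintro C ⟨h, _⟩
    exact h
  exact h1.to_subtype

open Polynomial in
theorem dev_tree (r : ℕ → ℕ) (g : Dev r) (k : ℕ) : ∃ d : ℕ, ∀ x : List Bool,
    ∃ T : DTree (List Bool), T.depth ≤ (x.length + 2) ^ (d * (r x.length + 1)) ∧
    MeasurableSet (WrongA (fun A => accProb A (g.1 x)) T) ∧
    randomOracle.real (WrongA (fun A => accProb A (g.1 x)) T) ≤ 1 / ((x.length : ℝ) + 2) ^ k := by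
  obtain ⟨C, hpoly, hfew⟩ := g
  obtain ⟨B, hB⟩ := circ_bound hpoly
  obtain ⟨d, hd⟩ := poly_bound (2 * (2 * B + 1) * Polynomial.C (72 ^ 6) * (X + 2) ^ (7 * k)
    * (Polynomial.C 884736 * (B + 1) ^ 12 * (Polynomial.C 320 * (B + 1) ^ 7) ^ 2) ^ 2 + 1)
  refine ⟨d, fun x => ?_⟩
  set L := B.eval x.length with hL
  set n := x.length with hn
  obtain ⟨hB1, hB2⟩ := hB x
  have hη0 : (0 : ℝ) < 1 / ((n : ℝ) + 2) ^ k := by positivity
  obtain ⟨T, hT1, hT2, hT3⟩ := tree_oracle (fun A => accProb A (C x)) L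
    (2 * (2 * (C x).2.length + 1) * 72 ^ 6 * DD (r n) (C x).2.length ^ 2
        / (1 / ((n : ℝ) + 2) ^ k) ^ 7 + 1) (1 / ((n : ℝ) + 2) ^ k)
    (fun A A' hAA => accProb_local (N := 0) fun q k hq z hz => hAA z (hz.trans_le (hB2 q k hq)))
    (fun N Z hZ => tree_few hZ (hfew x) _ hη0)
  refine ⟨T, ?_, hT2, hT3⟩
  have h1 := hd n
  have e : (1 / ((n : ℝ) + 2) ^ k) ^ 7 = 1 / ((n : ℝ) + 2) ^ (7 * k) := by
    rw [div_pow, one_pow, ← pow_mul, mul_comm k 7]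
  rw [e, div_div_eq_mul_div, div_one] at hT1
  have hD0 := DD_pos (r n) (C x).2.length
  have hDL : DD (r n) (C x).2.length ≤ (E1 L : ℝ) ^ (r n + 1) := by
    refine (DD_le _ _).trans ?_
    have h0 : (E1 (C x).2.length : ℝ) ≤ (E1 L : ℝ) := Nat.cast_le.2 (E1_mono hB1)
    exact pow_le_pow_left₀ (Nat.cast_nonneg _) h0 _
  obtain ⟨Xn, hXn⟩ : ∃ Xn : ℕ, Xn = 2 * (2 * L + 1) * 72 ^ 6 * (n + 2) ^ (7 * k) := ⟨_, rfl⟩
  have hX1 : 1 ≤ Xn := Nat.succ_le_of_lt (by rw [hXn]; positivity)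
  have h2 : (T.depth : ℝ) ≤ (((Xn * E1 L ^ 2 + 1) ^ (r n + 1) : ℕ) : ℝ) := by
    refine hT1.trans ?_
    have h3 : 2 * (2 * ((C x).2.length : ℝ) + 1) * 72 ^ 6 * DD (r n) (C x).2.length ^ 2
        * ((n : ℝ) + 2) ^ (7 * k) ≤ (Xn : ℝ) * ((E1 L : ℝ) ^ (r n + 1)) ^ 2 := by
      have hB1' : ((C x).2.length : ℝ) ≤ L := by exact_mod_cast hB1
      calc 2 * (2 * ((C x).2.length : ℝ) + 1) * 72 ^ 6 * DD (r n) (C x).2.length ^ 2
            * ((n : ℝ) + 2) ^ (7 * k)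
          ≤ 2 * (2 * (L : ℝ) + 1) * 72 ^ 6 * ((E1 L : ℝ) ^ (r n + 1)) ^ 2
            * ((n : ℝ) + 2) ^ (7 * k) := by gcongr
        _ = _ := by
          rw [hXn]
          push_cast
          ring
    have h4 : (Xn : ℝ) ≤ (Xn : ℝ) ^ (r n + 1) :=
      le_self_pow₀ (by exact_mod_cast hX1) (by omega)
    have h5 : (Xn : ℝ) * ((E1 L : ℝ) ^ (r n + 1)) ^ 2 ≤ ((Xn : ℝ) * (E1 L : ℝ) ^ 2) ^ (r n + 1) := by
      rw [mul_pow]
      have e2 : ((E1 L : ℝ) ^ (r n + 1)) ^ 2 = ((E1 L : ℝ) ^ 2) ^ (r n + 1) := by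
        rw [← pow_mul, ← pow_mul, mul_comm]
      rw [e2]
      gcongr
    have h6 := pow_add_pow_le (x := (Xn : ℝ) * (E1 L : ℝ) ^ 2) (y := 1) (by positivity)
      zero_le_one (Nat.succ_ne_zero (r n))
    rw [one_pow, Nat.succ_eq_add_one] at h6
    push_cast
    linarith
  have h3 : T.depth ≤ (Xn * E1 L ^ 2 + 1) ^ (r n + 1) := by exact_mod_cast h2
  refine h3.trans ?_
  rw [pow_mul]
  refine Nat.pow_le_pow_left (le_trans (le_of_eq ?_) h1) _
  simp [hXn, hL, E1]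

open Classical in
/-- The theorem for circuits which ask every question in few rounds. -/
theorem few_final (r : ℕ → ℕ) (k : ℕ) : ∃ T : ℕ → List Bool → DTree (List Bool),
    (∀ i, ∃ d : ℕ, ∀ x, (T i x).depth ≤ (x.length + 2) ^ (d * (r x.length + 1))) ∧
    (∀ w : List Bool → ℝ, (∀ x, 0 ≤ w x) → (∀ n, ∑ x : Fin n → Bool, w (List.ofFn x) ≤ 1) →
      ∀ᵐ A ∂randomOracle, ∀ L : Set (List Bool), IsBQPFew r A L → ∃ i, ∀ᶠ n : ℕ in atTop,
        (∑ x : Fin n → Bool, if ((T i (List.ofFn x)).eval A = true ↔ List.ofFn x ∈ L) then 0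
          else w (List.ofFn x)) * n ^ k ≤ 1) ∧
    (∀ S : Set (List Bool), (∀ n, 1 ≤ n → {x : Fin n → Bool | List.ofFn x ∈ S}.ncard ≤ n ^ k) →
      ∀ᵐ A ∂randomOracle, ∀ L : Set (List Bool), IsBQPFew r A L → ∃ i, ∀ᶠ n : ℕ in atTop,
        ∀ x : Fin n → Bool, List.ofFn x ∈ S →
          ((T i (List.ofFn x)).eval A = true ↔ List.ofFn x ∈ L)) :=
  languages (fun d n => (n + 2) ^ (d * (r n + 1))) (fun (g : Dev r) x A => accProb A (g.1 x))
    (dev_tree r) (IsBQPFew r) (fun A L ⟨C, h1, h2, h3⟩ => ⟨⟨C, h1, h2⟩, h3⟩) k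

end Pool.Agent.W938.Rnd
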