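import Pool.Agent.W938.Rnd.Flow
import Pool.Agent.W938.Hyb.Main1
import Pool.Agent.H889R3.RQ.TaskE
import Pool.Agent.H444R3.RQ.B1
import Pool.Agent.H710R3.RQB2

/-!
# The influence theorem for circuits which ask every question in few rounds
-/

set_option autoImplicit false
set_option linter.unusedSectionVars false

namespace Pool.Agent.W938.Rnd

open Finset Pool.Agent.H620R2.Gauge Pool.Agent.W938.Hyb
open Pool.Agent.H572R2 (EE EE_congr EE_sub EE_add EE_mul EE_const GR Grd flp reads)
open Pool.Agent.H572R4.QA (var rs DegLe)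
open Pool.Agent.H889R3.RQ (inf2)

variable {m N : ℕ}

/-- Different strings correspond to different bits. -/
def InjA (Z : Adm N) : Prop :=
  ∀ z z' i, (∀ y, Z.O y z = y i) → (∀ y, Z.O y z' = y i) → z = z'

lemma InjA.fix {Z : Adm N} (hZ : InjA Z) (j : Fin N) (c : Bool) : InjA (Z.fix j c) := by
  have key : ∀ z i, (∀ y, (Z.fix j c).O y z = y i) → ∀ y, Z.O y z = y i := by
    intro z i h
    have h' : ∀ y, Z.O (Function.update y j c) z = y i := h
    rcases Z.h z with ⟨b, hb⟩ | ⟨i', hi'⟩
    · have h1 := h' (fun _ => true)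
      have h2 := h' (fun _ => false)
      rw [hb] at h1 h2
      rw [h1] at h2
      simp at h2
    · by_cases hij : i' = j
      · subst hij
        have h1 := h' (fun _ => true)
        have h2 := h' (fun _ => false)
        rw [hi', Function.update_self] at h1 h2
        rw [h1] at h2
        simp at h2
      · have h3 : ∀ y : Fin N → Bool, y i' = y i := by
          intro y
          have := h' y
          rw [hi', Function.update_of_ne hij] at this
          exact this
        intro y
        rw [hi' y, h3 y]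
  intro z z' i h h'
  exact hZ z z' i (key z i h) (key z' i h')

lemma getD_mem_or (Ls : List (List Gate)) (u : ℕ) : Ls.getD u [] ∈ Ls ∨ Ls.getD u [] = [] := by
  rw [List.getD_eq_getElem?_getD]
  rcases h : Ls[u]? with _ | R
  · right; rfl
  · left
    simpa using List.mem_of_getElem? h

lemma getD_nil_of_le (Ls : List (List Gate)) {u : ℕ} (h : Ls.length ≤ u) : Ls.getD u [] = [] := by
  rw [List.getD_eq_getElem?_getD, List.getElem?_eq_none h]
  rfl

lemma asked_lt {Ls : List (List Gate)} {z : List Bool} {u : ℕ} (h : AskedIn m Ls z u) :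
    u < Ls.length := by
  by_contra hc
  push Not at hc
  obtain ⟨A, s, ⟨q, k, h1, _⟩, _⟩ := h
  rw [getD_nil_of_le Ls hc] at h1
  simp at h1

lemma asked_finite (Ls : List (List Gate)) (z : List Bool) : {u : ℕ | AskedIn m Ls z u}.Finite :=
  (Set.finite_Iio Ls.length).subset fun _ h => asked_lt h

lemma reads_le {Z : Adm N} (hZ : InjA Z) (Ls : List (List Gate)) (r : ℕ)
    (hr : ∀ z, {u : ℕ | AskedIn m Ls z u}.ncard ≤ r) (T : ℕ) (i : Fin N) :
    (reads (Rd m Z Ls) T i).card ≤ min r Ls.length := by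
  classical
  have key : ∀ u ∈ reads (Rd m Z Ls) T i, ∃ (y : Fin N → Bool) (s : Fin m → Bool) (q : List ℕ) (k : ℕ),
      Sum.inr (true, q, k) ∈ Ls.getD u [] ∧ Z.kd (q.map (rd s)) = Sum.inr i ∧ st m Z Ls u y s ≠ 0 := by
    intro u hu
    unfold reads at hu
    rw [Finset.mem_filter] at hu
    have h1 := hu.2
    unfold Rd at h1
    rw [Finset.mem_filter] at h1
    obtain ⟨_, y, hy⟩ := h1
    unfold mg pB at hy
    obtain ⟨s, _, hs⟩ := Finset.exists_ne_zero_of_sum_ne_zero hy
    split_ifs at hs with h2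
    · obtain ⟨q, k, h3, h4⟩ := h2
      exact ⟨y, s, q, k, h3, h4, fun h => hs (by rw [h]; simp)⟩
    · exact absurd rfl hs
  by_cases hz : ∃ z, Z.kd z = Sum.inr i
  · obtain ⟨z, hz⟩ := hz
    have hsub : (↑(reads (Rd m Z Ls) T i) : Set ℕ) ⊆ {u : ℕ | AskedIn m Ls z u} := by
      intro u hu
      obtain ⟨y, s, q, k, h1, h2, h3⟩ := key u hu
      have h4 : q.map (rd s) = z := hZ _ _ i (fun y => Z.kd_inr h2 y) (fun y => Z.kd_inr hz y)
      exact ⟨Z.O y, s, ⟨q, k, h1, h4⟩, h3⟩
    have h1 : (reads (Rd m Z Ls) T i).card ≤ {u : ℕ | AskedIn m Ls z u}.ncard := by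
      rw [← Set.ncard_coe_finset]
      exact Set.ncard_le_ncard hsub (asked_finite Ls z)
    have h2 : {u : ℕ | AskedIn m Ls z u}.ncard ≤ Ls.length := by
      have h3 : {u : ℕ | AskedIn m Ls z u} ⊆ ↑(Finset.range Ls.length) := by
        intro u h
        rw [Finset.mem_coe, Finset.mem_range]
        exact asked_lt h
      refine (Set.ncard_le_ncard h3 (Finset.finite_toSet _)).trans ?_
      rw [Set.ncard_coe_finset, Finset.card_range]
    exact le_min (h1.trans (hr z)) (h1.trans h2)
  · have h0 : reads (Rd m Z Ls) T i = ∅ := by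
      apply Finset.eq_empty_of_forall_notMem
      intro u hu
      obtain ⟨y, s, q, k, h1, h2, h3⟩ := key u hu
      exact hz ⟨_, h2⟩
    rw [h0]
    simp

/-- The constant of the influence theorem. -/
noncomputable def DD (r l : ℕ) : ℝ :=
  884736 * ((min r l + 1 : ℕ) : ℝ) ^ 2 * (((l + 1 : ℕ) : ℝ) * ((l + 1 : ℕ) : ℝ)) ^ 5
    * (320 * ((min r l + 1 : ℕ) : ℝ) ^ 4 * ((l + 1 : ℕ) : ℝ) ^ 2 * ((l + 1 : ℕ) : ℝ)) ^ (2 * (min r l + 1))

/-- The acceptance probability as a function of the bits. -/
noncomputable def fb (Z : Adm N) (c : List Unit × List Gate) (y : Fin N → Bool) : ℝ :=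
  accProb (Z.O y) c

lemma var_eq (f : (Fin N → Bool) → ℝ) : var f = EE (fun x => (f x - EE f) ^ 2) := by
  unfold var
  have e : (fun x => (f x - EE f) ^ 2)
      = fun x => (f x ^ 2 - 2 * EE f * f x) + EE f ^ 2 := by funext x; ring
  rw [e, EE_add, EE_sub, EE_mul, EE_const]
  ring

theorem infl {Z : Adm N} (hZ : InjA Z) {r : ℕ} {c : List Unit × List Gate} (hc : FewRounds r c)
    (hV : 0 < var (fb Z c)) :
    ∃ l, (var (fb Z c) ^ 3 / DD r c.2.length) ^ 2 ≤ inf2 (fb Z c) l := by
  obtain ⟨Ls, hfl, hlay, hr⟩ := hc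
  have hlen : Ls.length ≤ c.2.length := by
    rw [← hfl]
    clear hfl hr
    induction Ls with
    | nil => simp
    | cons R Ls ih =>
      have h1 := (hlay R List.mem_cons_self).1
      have h2 := ih (fun R hR => hlay R (List.mem_cons_of_mem _ hR))
      have h3 := List.length_pos_iff.2 h1
      rw [List.flatten_cons, List.length_append, List.length_cons]
      omega
  have hLs : ∀ u, Lay (Ls.getD u []) := by
    intro u
    rcases getD_mem_or Ls u with h | h
    · exact (hlay _ h).2
    · rw [h]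
      exact Or.inl (by simp)
  have hL : ∀ u, (Ls.getD u []).length ≤ c.2.length + 1 := by
    intro u
    rcases getD_mem_or Ls u with h | h
    · rw [← hfl]
      exact (List.Sublist.length_le (List.sublist_flatten_of_mem h)).trans (Nat.le_succ _)
    · rw [h]
      simp
  have hf : pB c.1.length Z Ls (fun s => rd s 0 = true) (c.2.length + 1) = fb Z c := by
    funext y
    unfold pB fb accProb st
    rw [List.take_of_length_le (hlen.trans (Nat.le_succ _)), hfl]
    refine Finset.sum_congr rfl fun s _ => ?_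
    split_ifs <;> rfl
  have hR : ∀ i, (reads (Rd c.1.length Z Ls) (c.2.length + 1) i).card
      ≤ min r c.2.length + 1 := by
    intro i
    refine (reads_le hZ Ls r hr _ i).trans ?_
    have : min r Ls.length ≤ min r c.2.length := min_le_min_left _ hlen
    omega
  have hone : (1 : ℝ) ≤ ((c.2.length + 1 : ℕ) : ℝ) := by
    exact_mod_cast Nat.succ_pos _
  obtain ⟨i, hi⟩ := Pool.Agent.H572R2.abstract_inf (gr c.1.length Z Ls (c.2.length + 1) hLs hL) hone
    (c.2.length + 1) (Nat.succ_pos _) (min r c.2.length + 1) (Nat.succ_pos _) hR (fb Z c)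
    (fun x => by rw [← hf]; exact pB_nonneg _ _ _ _ _ x)
    (fun x => by rw [← hf]; exact pB_le_one _ _ _ _ _ x)
    (by rw [← hf]; exact grd c.1.length Z Ls (c.2.length + 1) hLs hL _ _)
    (var (fb Z c)) (var_eq _) hV
  exact ⟨i, hi⟩

theorem degfb (Z : Adm N) (c : List Unit × List Gate) : DegLe (2 * c.2.length) (fb Z c) := by
  obtain ⟨_, hmono, _, _, hd⟩ := Pool.Agent.H444R3.RQ.b1 N
  refine hd _ _ (hmono _ _ ?_ (Pool.Agent.H710R3.RQB2.b2 Pool.Agent.H444R3.RQ.b1 N Z.O Z.h c))
  have : Pool.Agent.H516R2.EQP.queries c ≤ c.2.length := List.countP_le_length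
  omega

end Pool.Agent.W938.Rnd
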