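import Pool.Agent.W938.Hyb.Defs

/-!
# Quantum circuits which ask every question in few rounds
-/

set_option autoImplicit false

namespace Pool.Agent.W938.Rnd

open Pool.Agent.NPC Pool.Agent.H620R2.Gauge Pool.Agent.W938.Hyb

/-- In the basis state `s`, one of the gates of `R` asks the oracle about the string `z`. -/
def Asks {m : ℕ} (R : List Gate) (z : List Bool) (s : Fin m → Bool) : Prop :=
  ∃ q k, Sum.inr (true, q, k) ∈ R ∧ q.map (rd s) = z

/-- The layer number `u` of the circuit with the layers `Ls` asks about `z` with positive
probability, relative to some oracle `A`. -/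
def AskedIn (m : ℕ) (Ls : List (List Gate)) (z : List Bool) (u : ℕ) : Prop :=
  ∃ (A : Oracle) (s : Fin m → Bool), Asks (Ls.getD u []) z s ∧
    circAct A (Ls.take u).flatten (initSt m) s ≠ 0

/-- The circuit `c` can be cut into layers such that each layer either does not ask the oracle or
is a round of parallel questions, and every string is asked in at most `r` of the layers. -/
def FewRounds (r : ℕ) (c : List Unit × List Gate) : Prop :=
  ∃ Ls : List (List Gate), Ls.flatten = c.2 ∧
    (∀ R ∈ Ls, R ≠ [] ∧ ((∀ g ∈ R, Free g) ∨ Round R)) ∧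
    ∀ z, {u : ℕ | AskedIn c.1.length Ls z u}.ncard ≤ r

/-- The language `L` is in bounded-error quantum polynomial time relative to `A`, by circuits which
ask every question in at most `r n` rounds on inputs of length `n` (compare `IsBQP`). -/
def IsBQPFew (r : ℕ → ℕ) (A : Oracle) (L : Set (List Bool)) : Prop :=
  ∃ C : List Bool → List Unit × List Gate, PolyTime (fun x => bits (C x)) ∧
    (∀ x, FewRounds (r x.length) (C x)) ∧
    ∀ x, (x ∈ L → 2 / 3 ≤ accProb A (C x)) ∧ (x ∉ L → accProb A (C x) ≤ 1 / 3)

end Pool.Agent.W938.Rnd
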