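import Pool.Agent.W938.Rnd.Defs
import Pool.Agent.W938.Hyb.Circ
import Pool.Agent.H572R2.ReadsMain
import Pool.Agent.H116R3.RQ.B3

/-!
# The gradient bound for circuits with rounds of questions
-/

set_option autoImplicit false
set_option linter.unusedSectionVars false

namespace Pool.Agent.W938.Rnd

open Finset Pool.Agent.H620R2.Gauge Pool.Agent.W938.Hyb
open Pool.Agent.H703R2.AA (nsq nsq_nonneg)
open Pool.Agent.H572R2 (Grd GR flp reads)

variable {m N : ℕ}

/-- The scalar product. -/
def ip (φ ψ : (Fin m → Bool) → ℝ) : ℝ := ∑ s, φ s * ψ s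

lemma ip_add (φ ψ ψ' : (Fin m → Bool) → ℝ) : ip φ (fun s => ψ s + ψ' s) = ip φ ψ + ip φ ψ' := by
  unfold ip
  rw [← Finset.sum_add_distrib]
  exact Finset.sum_congr rfl fun s _ => by ring

lemma ip_sub (φ ψ ψ' : (Fin m → Bool) → ℝ) : ip φ (fun s => ψ s - ψ' s) = ip φ ψ - ip φ ψ' := by
  unfold ip
  rw [← Finset.sum_sub_distrib]
  exact Finset.sum_congr rfl fun s _ => by ring

/-- Gates are symmetric. -/
lemma gate_symm (A : Oracle) (g : Gate) (φ ψ : (Fin m → Bool) → ℝ) :
    ip φ (gateAct A g ψ) = ip (gateAct A g φ) ψ := by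
  have hfl : ∀ (c : (Fin m → Bool) → Bool) (k : ℕ),
      ip φ (fun s => ψ (flipIf c k s)) = ip (fun s => φ (flipIf c k s)) ψ := by
    intro c k
    unfold ip
    rw [← sum_flipIf c k (fun s => φ s * ψ (flipIf c k s))]
    refine Finset.sum_congr rfl fun s _ => ?_
    rw [flipIf_involutive c k s]
  rcases g with i | ⟨u, q, k⟩
  · unfold ip
    simp only [gateAct]
    by_cases h : i < m
    · simp only [dif_pos h]
      refine sum_eq_of_pair i _ _ fun s => ?_
      have hX : Xf i s = Function.update s ⟨i, h⟩ (!(s ⟨i, h⟩)) := by unfold Xf; rw [dif_pos h]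
      rw [hX]
      cases hs : s ⟨i, h⟩ with
      | false =>
        have e : Function.update s ⟨i, h⟩ false = s := by rw [← hs]; exact Function.update_eq_self _ _
        simp only [Function.update_idem, e, Bool.not_false, Function.update_self, hs]
        simp only [Bool.false_eq_true, if_false, if_true]
        ring
      | true =>
        have e : Function.update s ⟨i, h⟩ true = s := by rw [← hs]; exact Function.update_eq_self _ _
        simp only [Function.update_idem, e, Bool.not_true, Function.update_self, hs]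
        simp only [Bool.false_eq_true, if_false, if_true]
        ring
    · simp only [dif_neg h]
  · cases u with
    | false => exact hfl _ k
    | true => exact hfl _ k

lemma circ_symm (A : Oracle) : ∀ (l : List Gate) (φ ψ : (Fin m → Bool) → ℝ),
    ip φ (circAct A l ψ) = ip (circAct A l.reverse φ) ψ
  | [], _, _ => rfl
  | g :: l, φ, ψ => by
    rw [circAct, circ_symm A l φ (gateAct A g ψ), gate_symm, List.reverse_cons, circAct_append]
    rfl

/-- Some gate of `R` asks for the bit `i`. -/
def Pi (Z : Adm N) (R : List Gate) (i : Fin N) (s : Fin m → Bool) : Prop :=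
  ∃ q k, Sum.inr (true, q, k) ∈ R ∧ Z.kd (q.map (rd s)) = Sum.inr i

/-- A free layer or a round. -/
def Lay (R : List Gate) : Prop := (∀ g ∈ R, Free g) ∨ Round R

lemma Pi_flipIf (Z : Adm N) {R : List Gate} (i : Fin N) {q : List ℕ} {k : ℕ}
    (hR : ∀ q' k', Sum.inr (true, q', k') ∈ R → k ∉ q') (c : (Fin m → Bool) → Bool)
    (s : Fin m → Bool) : Pi Z R i (flipIf c k s) ↔ Pi Z R i s := by
  have key : ∀ s : Fin m → Bool, ∀ q' k', Sum.inr (true, q', k') ∈ R →
      q'.map (rd (flipIf c k s)) = q'.map (rd s) := by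
    intro s q' k' h
    refine List.map_congr_left fun j hj => ?_
    have hjk : j ≠ k := by
      rintro rfl
      exact hR q' k' h hj
    rw [flipIf_eq]
    split_ifs
    · exact Adm.rd_Xf_ne hjk s
    · rfl
  unfold Pi
  constructor
  · rintro ⟨q', k', h1, h2⟩
    exact ⟨q', k', h1, by rw [← key s q' k' h1]; exact h2⟩
  · rintro ⟨q', k', h1, h2⟩
    exact ⟨q', k', h1, by rw [key s q' k' h1]; exact h2⟩

open Classical in
/-- The part of the vector which asks for the bit `i`. -/
noncomputable def pr (Z : Adm N) (R : List Gate) (i : Fin N) (ψ : (Fin m → Bool) → ℝ) :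
    (Fin m → Bool) → ℝ := fun s => if Pi Z R i s then ψ s else 0

open Classical in
/-- The part of the vector which does not ask for the bit `i`. -/
noncomputable def npr (Z : Adm N) (R : List Gate) (i : Fin N) (ψ : (Fin m → Bool) → ℝ) :
    (Fin m → Bool) → ℝ := fun s => if Pi Z R i s then 0 else ψ s

lemma pr_gate (Z : Adm N) (A : Oracle) {R : List Gate} (i : Fin N) {q : List ℕ} {k : ℕ}
    (hR : ∀ q' k', Sum.inr (true, q', k') ∈ R → k ∉ q') (ψ : (Fin m → Bool) → ℝ) :
    gateAct A (Sum.inr (true, q, k)) (pr Z R i ψ) = pr Z R i (gateAct A (Sum.inr (true, q, k)) ψ) := by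
  funext s
  simp only [gateAct, pr]
  rw [Pi_flipIf Z (q := q) i hR]

lemma pr_circ (Z : Adm N) (A : Oracle) {R : List Gate} (hR : Round R) (i : Fin N) :
    ∀ (l : List Gate), (∀ g ∈ l, g ∈ R) → ∀ ψ : (Fin m → Bool) → ℝ,
      circAct A l (pr Z R i ψ) = pr Z R i (circAct A l ψ)
  | [], _, _ => rfl
  | g :: l, hl, ψ => by
    have hg : g ∈ R := hl g List.mem_cons_self
    have h5 := hR.1 g hg
    unfold Free at h5
    push Not at h5
    obtain ⟨q, k, rfl⟩ := h5
    rw [circAct, pr_gate Z A i (fun q' k' h => hR.2 q k q' k' hg h)]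
    exact pr_circ Z A hR i l (fun g h => hl g (List.mem_cons_of_mem _ h)) _

/-- Outside the set `Pi` the oracles do not differ. -/
lemma npr_circ (Z : Adm N) {R : List Gate} (hR : Round R) (i : Fin N) (y y' : Fin N → Bool)
    (hy : ∀ j, j ≠ i → y j = y' j) :
    ∀ (l : List Gate), (∀ g ∈ l, g ∈ R) → ∀ ψ : (Fin m → Bool) → ℝ, (∀ s, Pi Z R i s → ψ s = 0) →
      circAct (Z.O y) l ψ = circAct (Z.O y') l ψ
  | [], _, _, _ => rfl
  | g :: l, hl, ψ, hψ => by
    have hg : g ∈ R := hl g List.mem_cons_self
    have h5 := hR.1 g hg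
    unfold Free at h5
    push Not at h5
    obtain ⟨q, k, rfl⟩ := h5
    have hkq : ∀ q' k', Sum.inr (true, q', k') ∈ R → k ∉ q' := fun q' k' h => hR.2 q k q' k' hg h
    have e : gateAct (Z.O y) (Sum.inr (true, q, k)) ψ = gateAct (Z.O y') (Sum.inr (true, q, k)) ψ := by
      funext s
      simp only [gateAct]
      by_cases hs : Pi Z R i s
      · rw [hψ _ ((Pi_flipIf Z (q := q) i hkq _ s).2 hs), hψ _ ((Pi_flipIf Z (q := q) i hkq _ s).2 hs)]
      · have hz : ∀ s' : Fin m → Bool, s' = clr k s → Z.O y (q.map (rd s')) = Z.O y' (q.map (rd s')) := by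
          rintro s' rfl
          have e1 : q.map (rd (clr k s)) = q.map (rd s) := by
            refine List.map_congr_left fun j hj => Adm.rd_clr_ne ?_ s
            rintro rfl
            exact hkq q j hg hj
          rw [e1]
          cases hk : Z.kd (q.map (rd s)) with
          | inl b => rw [Z.kd_inl hk, Z.kd_inl hk]
          | inr j =>
            rw [Z.kd_inr hk, Z.kd_inr hk]
            refine hy j ?_
            rintro rfl
            exact hs ⟨q, k, hg, hk⟩
        rw [flipIf_eq, flipIf_eq, hz _ rfl]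
    rw [circAct, circAct, ← e]
    refine npr_circ Z hR i y y' hy l (fun g h => hl g (List.mem_cons_of_mem _ h)) _ ?_
    intro s hs
    simp only [gateAct]
    exact hψ _ ((Pi_flipIf Z (q := q) i hkq _ s).2 hs)

lemma circ_sub (A : Oracle) (l : List Gate) (ψ ψ' : (Fin m → Bool) → ℝ) :
    circAct A l (fun s => ψ s - ψ' s) = fun s => circAct A l ψ s - circAct A l ψ' s := by
  funext s
  have h := circAct_lin A (Finset.univ : Finset Bool) (fun b => if b then (1 : ℝ) else -1) l
    (fun b => if b then ψ else ψ') s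
  simp only [Fintype.sum_bool, if_true, Bool.false_eq_true, if_false, one_mul, neg_one_mul] at h
  have e : (fun s => ψ s - ψ' s) = fun s => ψ s + -ψ' s := by funext s; ring
  rw [e, h]
  ring

lemma circ_add (A : Oracle) (l : List Gate) (ψ ψ' : (Fin m → Bool) → ℝ) :
    circAct A l (fun s => ψ s + ψ' s) = fun s => circAct A l ψ s + circAct A l ψ' s := by
  funext s
  have h := circAct_lin A (Finset.univ : Finset Bool) (fun _ => (1 : ℝ)) l
    (fun b => if b then ψ else ψ') s
  simp only [Fintype.sum_bool, if_true, Bool.false_eq_true, if_false, one_mul] at h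
  exact h

/-- The effect of changing one bit on one layer. -/
lemma layer_diff (Z : Adm N) {R : List Gate} (hR : Lay R) (i : Fin N) (y y' : Fin N → Bool)
    (hy : ∀ j, j ≠ i → y j = y' j) (w ψ : (Fin m → Bool) → ℝ) :
    ip w (fun s => circAct (Z.O y) R ψ s - circAct (Z.O y') R ψ s)
      ≤ 2 * Real.sqrt (nsq (pr Z R i w) * nsq (pr Z R i ψ)) := by
  rcases hR with hR | hR
  · have e : circAct (Z.O y) R ψ = circAct (Z.O y') R ψ := circAct_free R hR ψ
    rw [e]
    have : ip w (fun s => circAct (Z.O y') R ψ s - circAct (Z.O y') R ψ s) = 0 := by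
      unfold ip
      simp
    rw [this]
    positivity
  · have hsplit : ψ = fun s => pr Z R i ψ s + npr Z R i ψ s := by
      funext s
      unfold pr npr
      split_ifs <;> simp
    have hn : circAct (Z.O y) R (npr Z R i ψ) = circAct (Z.O y') R (npr Z R i ψ) :=
      npr_circ Z hR i y y' hy R (fun g h => h) _ (fun s hs => by unfold npr; rw [if_pos hs])
    have e1 : (fun s => circAct (Z.O y) R ψ s - circAct (Z.O y') R ψ s)
        = fun s => circAct (Z.O y) R (pr Z R i ψ) s - circAct (Z.O y') R (pr Z R i ψ) s := by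
      funext s
      have h1 : circAct (Z.O y) R ψ s
          = circAct (Z.O y) R (pr Z R i ψ) s + circAct (Z.O y) R (npr Z R i ψ) s := by
        conv_lhs => rw [hsplit]
        rw [circ_add]
      have h2 : circAct (Z.O y') R ψ s
          = circAct (Z.O y') R (pr Z R i ψ) s + circAct (Z.O y') R (npr Z R i ψ) s := by
        conv_lhs => rw [hsplit]
        rw [circ_add]
      rw [h1, h2, hn]
      ring
    rw [e1, ip_sub]
    have hb : ∀ A : Oracle, |ip w (circAct A R (pr Z R i ψ))|
        ≤ Real.sqrt (nsq (pr Z R i w) * nsq (pr Z R i ψ)) := by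
      intro A
      have h1 : ip w (circAct A R (pr Z R i ψ)) = ip (pr Z R i w) (circAct A R (pr Z R i ψ)) := by
        rw [pr_circ Z A hR i R (fun g h => h)]
        unfold ip pr
        refine Finset.sum_congr rfl fun s _ => ?_
        split_ifs <;> simp
      rw [h1]
      apply Real.abs_le_sqrt
      unfold ip
      calc (∑ s, pr Z R i w s * circAct A R (pr Z R i ψ) s) ^ 2
          ≤ (∑ s, pr Z R i w s ^ 2) * ∑ s, circAct A R (pr Z R i ψ) s ^ 2 :=
            Finset.sum_mul_sq_le_sq_mul_sq _ _ _
        _ = nsq (pr Z R i w) * nsq (circAct A R (pr Z R i ψ)) := rfl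
        _ = _ := by rw [nsq_circAct]
    have h1 := (abs_le.1 (hb (Z.O y))).2
    have h2 := (abs_le.1 (hb (Z.O y'))).1
    linarith

variable (Z : Adm N) (m) (Ls : List (List Gate))

/-- The state before the layer `u`. -/
noncomputable def st (u : ℕ) (y : Fin N → Bool) : (Fin m → Bool) → ℝ :=
  circAct (Z.O y) (Ls.take u).flatten (initSt m)

lemma take_succ_flatten (u : ℕ) :
    (Ls.take (u + 1)).flatten = (Ls.take u).flatten ++ Ls.getD u [] := by
  rw [List.take_succ, List.flatten_append]
  congr 1
  rw [List.getD_eq_getElem?_getD]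
  cases Ls[u]? with
  | none => rfl
  | some R => simp

lemma st_succ (u : ℕ) (y : Fin N → Bool) :
    st m Z Ls (u + 1) y = circAct (Z.O y) (Ls.getD u []) (st m Z Ls u y) := by
  unfold st
  rw [take_succ_flatten, circAct_append]

lemma nsq_st (u : ℕ) (y : Fin N → Bool) : nsq (st m Z Ls u y) = 1 := by
  unfold st
  rw [nsq_circAct]
  exact Pool.Agent.H116R3.RQ.initSt_norm m

/-- Backward vectors. -/
lemma back (y : Fin N → Bool) : ∀ (t : ℕ) (v : (Fin m → Bool) → ℝ),
    ∃ w : ℕ → (Fin m → Bool) → ℝ, (∀ u, nsq (w u) = nsq v) ∧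
    ∀ i, ip v (fun s => st m Z Ls t y s - st m Z Ls t (flp i y) s)
      = ∑ u ∈ Finset.range t, ip (w u) (fun s =>
          circAct (Z.O y) (Ls.getD u []) (st m Z Ls u (flp i y)) s
          - circAct (Z.O (flp i y)) (Ls.getD u []) (st m Z Ls u (flp i y)) s) := by
  intro t
  induction t with
  | zero =>
    intro v
    refine ⟨fun _ => v, fun _ => rfl, fun i => ?_⟩
    simp [st, ip, circAct]
  | succ t ih =>
    intro v
    obtain ⟨w, hw1, hw2⟩ := ih (circAct (Z.O y) (Ls.getD t []).reverse v)
    refine ⟨fun u => if u = t then v else w u, fun u => ?_, fun i => ?_⟩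
    · by_cases hu : u = t
      · simp [hu]
      · simp only [hu, if_false]
        rw [hw1, nsq_circAct]
    · have e : (fun s => st m Z Ls (t + 1) y s - st m Z Ls (t + 1) (flp i y) s)
          = fun s => circAct (Z.O y) (Ls.getD t []) (fun s => st m Z Ls t y s
              - st m Z Ls t (flp i y) s) s
            + (circAct (Z.O y) (Ls.getD t []) (st m Z Ls t (flp i y)) s
              - circAct (Z.O (flp i y)) (Ls.getD t []) (st m Z Ls t (flp i y)) s) := by
        funext s
        rw [circ_sub, st_succ, st_succ]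
        ring
      rw [e, ip_add, circ_symm, hw2 i, Finset.sum_range_succ]
      congr 1
      · refine Finset.sum_congr rfl fun u hu => ?_
        have : u ≠ t := (Finset.mem_range.1 hu).ne
        simp [this]
      · simp

open Classical in
/-- The probability of a set of basis states before the layer `t`. -/
noncomputable def pB (B : (Fin m → Bool) → Prop) (t : ℕ) (y : Fin N → Bool) : ℝ :=
  ∑ s, if B s then st m Z Ls t y s ^ 2 else 0

/-- The weight of the bit `i` in the layer `u`. -/
noncomputable def mg (u : ℕ) (i : Fin N) (y : Fin N → Bool) : ℝ :=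
  pB m Z Ls (Pi Z (Ls.getD u []) i) u y

lemma mg_eq (u : ℕ) (i : Fin N) (y : Fin N → Bool) :
    mg m Z Ls u i y = nsq (pr Z (Ls.getD u []) i (st m Z Ls u y)) := by
  unfold mg pB nsq pr
  refine Finset.sum_congr rfl fun s _ => ?_
  split_ifs <;> simp

lemma pB_nonneg (B : (Fin m → Bool) → Prop) (t : ℕ) (y : Fin N → Bool) : 0 ≤ pB m Z Ls B t y := by
  unfold pB
  refine Finset.sum_nonneg fun s _ => ?_
  split_ifs
  · positivity
  · exact le_rfl

lemma pB_le_one (B : (Fin m → Bool) → Prop) (t : ℕ) (y : Fin N → Bool) : pB m Z Ls B t y ≤ 1 := by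
  rw [← nsq_st m Z Ls t y]
  unfold pB nsq
  refine Finset.sum_le_sum fun s _ => ?_
  split_ifs
  · exact le_rfl
  · positivity

variable (L : ℕ)

open Classical in
lemma sum_pr_le (u : ℕ) (hL : (Ls.getD u []).length ≤ L) (w : (Fin m → Bool) → ℝ) :
    ∑ i, nsq (pr Z (Ls.getD u []) i w) ≤ L * nsq w := by
  unfold nsq pr
  rw [Finset.sum_comm, Finset.mul_sum]
  refine Finset.sum_le_sum fun s _ => ?_
  have h1 : ∀ i, (if Pi Z (Ls.getD u []) i s then w s else 0) ^ 2
      = if Pi Z (Ls.getD u []) i s then w s ^ 2 else 0 := by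
    intro i; split_ifs <;> simp
  simp_rw [h1]
  rw [← Finset.sum_filter, Finset.sum_const, nsmul_eq_mul]
  refine mul_le_mul_of_nonneg_right ?_ (by positivity)
  have h2 : (Finset.univ.filter fun i => Pi Z (Ls.getD u []) i s).card ≤ L := by
    have h3 : (Finset.univ.filter fun i => Pi Z (Ls.getD u []) i s)
        ⊆ ((Ls.getD u []).toFinset.image fun g => match g with
          | Sum.inr (true, q, _) => (Z.kd (q.map (rd s))).elim (fun _ => none) some
          | _ => none).biUnion (fun o => match o with
          | none => ∅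
          | some j => {j}) := by
      intro i hi
      rw [Finset.mem_filter] at hi
      obtain ⟨q, k, h4, h5⟩ := hi.2
      rw [Finset.mem_biUnion]
      refine ⟨some i, ?_, by simp⟩
      rw [Finset.mem_image]
      refine ⟨Sum.inr (true, q, k), List.mem_toFinset.2 h4, ?_⟩
      simp [h5]
    refine (Finset.card_le_card h3).trans ?_
    refine (Finset.card_biUnion_le).trans ?_
    calc ∑ o ∈ ((Ls.getD u []).toFinset.image fun g => match g with
          | Sum.inr (true, q, _) => (Z.kd (q.map (rd s))).elim (fun _ => none) some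
          | _ => none), (match o with
          | none => (∅ : Finset (Fin N))
          | some j => {j}).card
        ≤ ∑ _o ∈ ((Ls.getD u []).toFinset.image fun g => match g with
          | Sum.inr (true, q, _) => (Z.kd (q.map (rd s))).elim (fun _ => (none : Option (Fin N))) some
          | _ => none), 1 := by
          refine Finset.sum_le_sum fun o _ => ?_
          cases o <;> simp
      _ ≤ L := by
          rw [Finset.sum_const, smul_eq_mul, mul_one]
          exact Finset.card_image_le.trans ((List.toFinset_card_le _).trans hL)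
  exact_mod_cast h2

/-- The gradient bound. -/
lemma grd (hLs : ∀ u, Lay (Ls.getD u [])) (hL : ∀ u, (Ls.getD u []).length ≤ L)
    (B : (Fin m → Bool) → Prop) (t : ℕ) :
    Grd Finset.univ (L : ℝ) (mg m Z Ls) t (pB m Z Ls B t) := by
  classical
  intro y
  set v : (Fin m → Bool) → ℝ := fun s => if B s then st m Z Ls t y s else 0 with hv
  have hnv : nsq v = pB m Z Ls B t y := by
    unfold nsq pB
    refine Finset.sum_congr rfl fun s _ => ?_
    rw [hv]
    simp only
    split_ifs <;> simp
  obtain ⟨w, hw1, hw2⟩ := back m Z Ls y t v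
  refine ⟨fun u i => nsq (pr Z (Ls.getD u []) i (w u)), fun u i => nsq_nonneg _, fun u => ?_,
    fun i => ?_⟩
  · refine (sum_pr_le m Z Ls L u (hL u) (w u)).trans ?_
    rw [hw1, hnv]
  · have h1 : pB m Z Ls B t y - pB m Z Ls B t (flp i y)
        ≤ 2 * ip v (fun s => st m Z Ls t y s - st m Z Ls t (flp i y) s) := by
      unfold pB ip
      rw [← Finset.sum_sub_distrib, Finset.mul_sum]
      refine Finset.sum_le_sum fun s _ => ?_
      rw [hv]
      simp only
      split_ifs
      · nlinarith [sq_nonneg (st m Z Ls t y s - st m Z Ls t (flp i y) s)]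
      · simp
    refine h1.trans ?_
    rw [hw2 i, Finset.mul_sum, Finset.mul_sum]
    refine Finset.sum_le_sum fun u _ => ?_
    have h2 := layer_diff Z (hLs u) i y (flp i y) (fun j hj => by
      unfold flp
      rw [Function.update_of_ne hj]) (w u) (st m Z Ls u (flp i y))
    rw [mg_eq]
    linarith

/-- The set of the bits which may be asked in the layer `u`. -/
noncomputable def Rd (u : ℕ) : Finset (Fin N) := by
  classical
  exact Finset.univ.filter fun i => ∃ y, mg m Z Ls u i y ≠ 0

lemma gr (hLs : ∀ u, Lay (Ls.getD u [])) (hL : ∀ u, (Ls.getD u []).length ≤ L) :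
    GR (Rd m Z Ls) (L : ℝ) (mg m Z Ls) where
  nonneg := fun t k x => pB_nonneg m Z Ls _ t x
  le_one := fun t k x => pB_le_one m Z Ls _ t x
  sum_le := by
    intro t x
    have := sum_pr_le m Z Ls L t (hL t) (st m Z Ls t x)
    rw [nsq_st, mul_one] at this
    simp_rw [mg_eq]
    exact this
  supp := by
    intro t k x hk
    by_contra hc
    refine hk ?_
    unfold Rd
    classical
    rw [Finset.mem_filter]
    exact ⟨Finset.mem_univ _, x, hc⟩
  grad := fun v k => grd m Z Ls L hLs hL _ v

end Pool.Agent.W938.Rnd
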