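import Pool.Agent.W938.Rnd.Infl

/-!
# Random oracles: circuits which ask every question in few rounds
-/

set_option autoImplicit false
set_option linter.unusedSectionVars false

namespace Pool.Agent.W938.Rnd

open Filter Pool.Agent.H620R2.Gauge Pool.Agent.NPC Pool.Agent.H889R3.RQ Pool.Agent.W938.Hyb H568R2
open Pool.Agent.H628R3.RO (randomOracle)
open Pool.Agent.H572R2 (EE EE_congr)
open Pool.Agent.H572R4.QA (var rs DegLe)

/-- Simulation for families of functions with influential variables: if the variance is at least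
`η / 72` then some influence is at least `τ`. -/
theorem tree_family {N : ℕ} (F : Set ((Fin N → Bool) → ℝ)) (d : ℕ)
    (hF : ∀ f ∈ F, ∀ (j : Fin N) (c : Bool), rs j c f ∈ F)
    (h01 : ∀ f ∈ F, (∀ y, 0 ≤ f y) ∧ ∀ y, f y ≤ 1)
    (hdeg : ∀ f ∈ F, DegLe d f) (η τ : ℝ) (hη : 0 < η) (hτ0 : 0 < τ)
    (hinf : ∀ f ∈ F, η / 72 < var f → ∃ l, τ ≤ inf2 f l)
    (f : (Fin N → Bool) → ℝ) (hf : f ∈ F) :
    ∃ T : DTree (Fin N), (T.depth : ℝ) ≤ 2 * ((d : ℝ) + 1) / (τ * η) + 1 ∧ EE (bad f T) ≤ η := by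
  set v : ℝ := η / 72 with hv
  have hv0 : 0 < v := by positivity
  have hd0 : (0 : ℝ) ≤ d := Nat.cast_nonneg d
  have h3 := Pool.Agent.H169R3.RQ.a3 a1 N F τ v hτ0 hv0.le hF (by
    intro g hg hj
    by_contra hc
    push Not at hc
    obtain ⟨l, hl⟩ := hinf g hg hc
    have h4 := hj l
    linarith) (⌈2 * ((d : ℝ) + 1) / (τ * η)⌉₊ ) f hf
  obtain ⟨h3a, h3b⟩ := h3
  have htot := Pool.Agent.H023R3.RQ.a2 N d f
      (fun y => by rw [abs_le]; constructor <;> linarith [(h01 f hf).1 y, (h01 f hf).2 y])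
      (hdeg f hf)
  refine ⟨sim τ ⌈2 * ((d : ℝ) + 1) / (τ * η)⌉₊ f, ?_, ?_⟩
  · have h5 : ((sim τ ⌈2 * ((d : ℝ) + 1) / (τ * η)⌉₊ f).depth : ℝ)
        ≤ (⌈2 * ((d : ℝ) + 1) / (τ * η)⌉₊ : ℝ) := by
      exact_mod_cast h3a
    have h6 : (⌈2 * ((d : ℝ) + 1) / (τ * η)⌉₊ : ℝ) ≤ 2 * ((d : ℝ) + 1) / (τ * η) + 1 :=
      (Nat.ceil_lt_add_one (by positivity)).le
    exact h5.trans h6
  · by_contra hc
    push Not at hc
    have h5 : 2 * ((d : ℝ) + 1) / (τ * η) ≤ (⌈2 * ((d : ℝ) + 1) / (τ * η)⌉₊ : ℝ) := Nat.le_ceil _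
    have h8 : 2 * ((d : ℝ) + 1) ≤ (⌈2 * ((d : ℝ) + 1) / (τ * η)⌉₊ : ℝ) * τ * η := by
      rw [div_le_iff₀ (by positivity)] at h5
      linarith
    have h9 : η / 2 < EE (bad f (sim τ ⌈2 * ((d : ℝ) + 1) / (τ * η)⌉₊ f)) - 36 * v := by
      rw [hv]; linarith
    have h10 : 0 < (⌈2 * ((d : ℝ) + 1) / (τ * η)⌉₊ : ℝ) * τ := by
      by_contra hn
      push Not at hn
      nlinarith
    have h11 := mul_lt_mul_of_pos_left h9 h10
    linarith

/-- From functions of the bits to random oracles. -/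
theorem tree_oracle (p : Oracle → ℝ) (q : ℕ) (D η : ℝ)
    (hloc : ∀ A A' : Oracle, (∀ z : List Bool, z.length ≤ q → A z = A' z) → p A = p A')
    (h : ∀ (N : ℕ) (Z : Adm N), InjA Z → ∃ T : DTree (Fin N), (T.depth : ℝ) ≤ D ∧
      EE (bad (fun y => p (Z.O y)) T) ≤ η) :
    ∃ T : DTree (List Bool), (T.depth : ℝ) ≤ D ∧ MeasurableSet (WrongA p T) ∧
      randomOracle.real (WrongA p T) ≤ η := by
  set S : Finset (List Bool) := (List.finite_length_le Bool q).toFinset with hS
  have hmem : ∀ z : List Bool, z.length ≤ q → z ∈ S := by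
    intro z hz
    rw [hS, Set.Finite.mem_toFinset]
    exact hz
  set N := S.card with hN
  set e : Fin N → List Bool := fun i => (S.equivFin.symm i).1 with he
  have hinj : Function.Injective e := by
    intro i j hij
    exact S.equivFin.symm.injective (Subtype.ext hij)
  set O : (Fin N → Bool) → (List Bool → Bool) := fun y z =>
    if h : z ∈ S then y (S.equivFin ⟨z, h⟩) else false with hO
  have hOprop : ∀ z, (∃ b, ∀ y, O y z = b) ∨ ∃ i, ∀ y, O y z = y i := by
    intro z
    by_cases h : z ∈ S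
    · exact Or.inr ⟨S.equivFin ⟨z, h⟩, fun y => by simp only [hO, dif_pos h]⟩
    · exact Or.inl ⟨false, fun y => by simp only [hO, dif_neg h]⟩
  set f : (Fin N → Bool) → ℝ := fun y => p (O y) with hf
  have hloc' : ∀ A : Oracle, p A = f (fun i => A (e i)) := by
    intro A
    rw [hf]
    refine hloc _ _ fun z hz => ?_
    simp only [hO, dif_pos (hmem z hz), he, Equiv.symm_apply_apply]
  have hOinj : InjA (⟨O, hOprop⟩ : Adm N) := by
    have key : ∀ z i, (∀ y, O y z = y i) → ∃ h : z ∈ S, S.equivFin ⟨z, h⟩ = i := by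
      intro z i h
      by_cases hz : z ∈ S
      · refine ⟨hz, ?_⟩
        have h1 := h (fun j => decide (j = i))
        simp only [hO, dif_pos hz, decide_true, decide_eq_true_eq] at h1
        exact h1
      · have h1 := h (fun _ => true)
        simp only [hO, dif_neg hz] at h1
        simp at h1
    intro z z' i h h'
    obtain ⟨h1, h2⟩ := key z i h
    obtain ⟨h3, h4⟩ := key z' i h'
    have h5 := S.equivFin.injective (h2.trans h4.symm)
    exact congrArg Subtype.val h5
  obtain ⟨T, hT1, hT2⟩ := h N ⟨O, hOprop⟩ hOinj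
  have hW : WrongA p (T.map e) = {A : List Bool → Bool |
      (fun y : Fin N → Bool => (2 / 3 ≤ f y ∧ T.eval y = false) ∨ (f y ≤ 1 / 3 ∧ T.eval y = true))
        (fun i => A (e i))} := by
    ext A
    simp only [WrongA, Set.mem_ofPred_eq, DTree.eval_map, hloc' A]
  classical
  obtain ⟨hm, hp⟩ := Pool.Agent.H54.RQ.c1 N e hinj
    (fun y : Fin N → Bool => (2 / 3 ≤ f y ∧ T.eval y = false) ∨ (f y ≤ 1 / 3 ∧ T.eval y = true))
    (fun _ => Classical.propDecidable _)
  refine ⟨T.map e, ?_, ?_, ?_⟩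
  · rw [DTree.depth_map]
    exact hT1
  · rw [hW]; exact hm
  · rw [hW, hp]
    refine le_trans (le_of_eq ?_) hT2
    refine EE_congr fun y => ?_
    unfold bad
    split_ifs <;> rfl

open Classical in
/-- The general form: `Γ` is a countable family of devices, `p g x A` the probability that the
device `g` accepts `x` relative to `A`; the depth of the decision trees is at most `β d n`. -/
theorem languages {Γ : Type} [Countable Γ] (β : ℕ → ℕ → ℕ) (p : Γ → List Bool → Oracle → ℝ)
    (h : ∀ (g : Γ) (k : ℕ), ∃ d : ℕ, ∀ x : List Bool, ∃ T : DTree (List Bool),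
      T.depth ≤ β d x.length ∧ MeasurableSet (WrongA (p g x) T) ∧
      randomOracle.real (WrongA (p g x) T) ≤ 1 / ((x.length : ℝ) + 2) ^ k)
    (Cl : Oracle → Set (List Bool) → Prop)
    (hCl : ∀ A L, Cl A L → ∃ g : Γ, ∀ x, (x ∈ L → 2 / 3 ≤ p g x A) ∧ (x ∉ L → p g x A ≤ 1 / 3))
    (k : ℕ) :
    ∃ T : ℕ → List Bool → DTree (List Bool),
    (∀ i, ∃ d : ℕ, ∀ x, (T i x).depth ≤ β d x.length) ∧
    (∀ w : List Bool → ℝ, (∀ x, 0 ≤ w x) → (∀ n, ∑ x : Fin n → Bool, w (List.ofFn x) ≤ 1) →
      ∀ᵐ A ∂randomOracle, ∀ L : Set (List Bool), Cl A L → ∃ i, ∀ᶠ n : ℕ in atTop,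
        (∑ x : Fin n → Bool, if ((T i (List.ofFn x)).eval A = true ↔ List.ofFn x ∈ L) then 0
          else w (List.ofFn x)) * n ^ k ≤ 1) ∧
    (∀ S : Set (List Bool), (∀ n, 1 ≤ n → {x : Fin n → Bool | List.ofFn x ∈ S}.ncard ≤ n ^ k) →
      ∀ᵐ A ∂randomOracle, ∀ L : Set (List Bool), Cl A L → ∃ i, ∀ᶠ n : ℕ in atTop,
        ∀ x : Fin n → Bool, List.ofFn x ∈ S →
          ((T i (List.ofFn x)).eval A = true ↔ List.ofFn x ∈ L)) := by
  rcases isEmpty_or_nonempty Γ with hemp | hne
  · refine ⟨fun _ _ => DTree.leaf false, fun i => ⟨0, fun x => ?_⟩, ?_, ?_⟩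
    · simp [DTree.depth]
    · intro w _ _
      filter_upwards with A L hL
      obtain ⟨g, _⟩ := hCl A L hL
      exact (hemp.false g).elim
    · intro S _
      filter_upwards with A L hL
      obtain ⟨g, _⟩ := hCl A L hL
      exact (hemp.false g).elim
  obtain ⟨F, hF⟩ := exists_surjective_nat Γ
  choose dd hdd using fun g : Γ => h g (k + 1 + 2)
  choose T hT1 hT2 hT3 using fun (i : ℕ) (x : List Bool) => hdd (F i) x
  -- the general statement
  have main : ∀ w : List Bool → ℝ, (∀ x, 0 ≤ w x) →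
      (∀ n, ∑ x : Fin n → Bool, w (List.ofFn x) ≤ 1) →
      ∀ᵐ A ∂randomOracle, ∀ L : Set (List Bool), Cl A L → ∃ i, ∀ᶠ n : ℕ in atTop,
        (∑ x : Fin n → Bool, if ((T i (List.ofFn x)).eval A = true ↔ List.ofFn x ∈ L) then 0
          else w (List.ofFn x)) * n ^ (k + 1) ≤ 1 := by
    intro w hw0 hw
    have hae : ∀ᵐ A ∂randomOracle, ∀ i, ∀ᶠ n : ℕ in atTop,
        (∑ x : Fin n → Bool, if A ∈ WrongA (p (F i) (List.ofFn x)) (T i (List.ofFn x)) then
          w (List.ofFn x) else 0) * n ^ (k + 1) ≤ 1 := by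
      rw [MeasureTheory.ae_all_iff]
      intro i
      exact weights (k + 1) w hw0 hw (fun x => WrongA (p (F i) x) (T i x)) (hT2 i) (hT3 i)
    filter_upwards [hae] with A hA L hL
    obtain ⟨g, hgL⟩ := hCl A L hL
    obtain ⟨i, rfl⟩ := hF g
    refine ⟨i, ?_⟩
    filter_upwards [hA i] with n hn
    refine le_trans ?_ hn
    refine mul_le_mul_of_nonneg_right ?_ (by positivity)
    refine Finset.sum_le_sum fun x _ => ?_
    by_cases hx : ((T i (List.ofFn x)).eval A = true ↔ List.ofFn x ∈ L)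
    · rw [if_pos hx]
      split_ifs
      · exact hw0 _
      · exact le_refl _
    · rw [if_neg hx]
      have hW : A ∈ WrongA (p (F i) (List.ofFn x)) (T i (List.ofFn x)) := by
        unfold WrongA
        by_cases hxL : List.ofFn x ∈ L
        · left
          refine ⟨(hgL _).1 hxL, ?_⟩
          by_contra hcon
          exact hx ⟨fun _ => hxL, fun _ => by simpa using hcon⟩
        · right
          refine ⟨(hgL _).2 hxL, ?_⟩
          by_contra hcon
          exact hx ⟨fun h => absurd h hcon, fun h => absurd h hxL⟩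
      rw [if_pos hW]
  refine ⟨T, ?_, ?_, ?_⟩
  · intro i
    exact ⟨dd (F i), fun x => hT1 i x⟩
  · intro w hw0 hw
    filter_upwards [main w hw0 hw] with A hA L hL
    obtain ⟨i, hi⟩ := hA L hL
    refine ⟨i, ?_⟩
    filter_upwards [hi, eventually_ge_atTop 1] with n hn hn1
    refine le_trans ?_ hn
    refine mul_le_mul_of_nonneg_left ?_ ?_
    · exact pow_le_pow_right₀ (by exact_mod_cast hn1) (Nat.le_succ k)
    · refine Finset.sum_nonneg fun x _ => ?_
      split_ifs
      · exact le_refl _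
      · exact hw0 _
  · intro S hS
    have hm := main (fun x => if x ∈ S then 1 / (x.length : ℝ) ^ k else 0)
      (fun x => by split_ifs <;> positivity) (fun n => by
        have h1 : ∑ x : Fin n → Bool, (if List.ofFn x ∈ S then
            1 / ((List.ofFn x).length : ℝ) ^ k else 0) =
            ({x : Fin n → Bool | List.ofFn x ∈ S}.ncard : ℝ) * (1 / (n : ℝ) ^ k) := by
          rw [← Finset.sum_filter]
          simp only [List.length_ofFn]
          rw [Finset.sum_const, nsmul_eq_mul]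
          congr 2
          rw [Set.ncard_eq_toFinset_card']
          congr 1
          ext x
          simp
        rw [h1]
        by_cases hn : (n : ℝ) ^ k = 0
        · rw [hn]; simp
        · have hn0 : 0 < (n : ℝ) ^ k := lt_of_le_of_ne (by positivity) (Ne.symm hn)
          rw [mul_one_div, div_le_one hn0]
          rcases Nat.eq_zero_or_pos n with rfl | hpos
          · have hk0 : (0 : ℝ) ^ k = 1 := by
              rcases Nat.eq_zero_or_pos k with rfl | hk
              · simp
              · exact absurd (by simp [hk.ne']) hn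
            have hc : {x : Fin 0 → Bool | List.ofFn x ∈ S}.ncard ≤ 1 :=
              (Set.ncard_le_ncard (Set.subset_univ _) (Set.toFinite _)).trans
                (by rw [Set.ncard_univ]; simp)
            push_cast
            rw [hk0]
            exact_mod_cast hc
          · exact_mod_cast hS n hpos)
    filter_upwards [hm] with A hA L hL
    obtain ⟨i, hi⟩ := hA L hL
    refine ⟨i, ?_⟩
    filter_upwards [hi, eventually_ge_atTop 2] with n hn hn2 x hx
    by_contra hcon
    have hn2' : (2 : ℝ) ≤ n := by exact_mod_cast hn2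
    have hn0 : (0 : ℝ) < n := by linarith
    have h1 : 1 / (n : ℝ) ^ k ≤ ∑ x : Fin n → Bool,
        (if ((T i (List.ofFn x)).eval A = true ↔ List.ofFn x ∈ L) then (0 : ℝ)
          else if List.ofFn x ∈ S then 1 / ((List.ofFn x).length : ℝ) ^ k else 0) := by
      have h2 := Finset.single_le_sum (f := fun x : Fin n → Bool =>
        (if ((T i (List.ofFn x)).eval A = true ↔ List.ofFn x ∈ L) then (0 : ℝ)
          else if List.ofFn x ∈ S then 1 / ((List.ofFn x).length : ℝ) ^ k else 0))
        (fun y _ => by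
          split_ifs <;> positivity) (Finset.mem_univ x)
      simp only [if_neg hcon, if_pos hx, List.length_ofFn] at h2
      simpa only [List.length_ofFn] using h2
    have h3 : 1 / (n : ℝ) ^ k * (n : ℝ) ^ (k + 1) ≤ 1 :=
      (mul_le_mul_of_nonneg_right h1 (by positivity)).trans hn
    rw [pow_succ, ← mul_assoc, one_div, inv_mul_cancel₀ (by positivity), one_mul] at h3
    linarith



end Pool.Agent.W938.Rnd
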